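import Pool.Agent.Y303.SK.Stm
import Pool.Agent.Y303.SK.XDefs

/-!
Project DI: the Navier-Stokes equations (Dirichlet conditions in a bounded open set; axisymmetric
flows in `ℝ³`) with an additional dissipation `D = ∑ lam i ⟨·, e i⟩ e i ≥ 0`. Definitions.
-/

open Set Filter Topology MeasureTheory Metric

set_option autoImplicit false

namespace Pool.Agent.Y8.DI

open Pool.Agent.Y5 (E3)
open Pool.Agent.Y5.D (Ix qd vf3 Init)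
open Pool.Agent.Y6.N
open Pool.Agent.Y6.K (Kz lv)
open Pool.Agent.Y303.SK

/-! ### Abstract systems -/

/-- damping rates: `0` for the main modes, `S (o j)` for the other modes -/
noncomputable def rt {J : Type} (S : ℕ → ℝ) (o : J → ℕ) : Ix J → ℝ
  | Sum.inl _ => 0
  | Sum.inr j => S (o j)

/-- the matrix `D` plus the damping rates on the diagonal -/
noncomputable def Dp {J : Type} (S : ℕ → ℝ) (o : J → ℕ) (D : Ix J → Ix J → ℝ)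
    (a b : Ix J) : ℝ :=
  D a b + (open Classical in if a = b then rt S o a else 0)

/-! ### The equations in a bounded open set -/

/-- The dissipation `D = ∑ lam i ⟨·, e i⟩ e i`: here `e i` is a complete orthonormal system of `H`
which consists of smooth compactly supported divergence-free fields, and `lam i ≥ 0`. -/
structure DissD {ι : Type} (Ω : Set E3) (e : ι → E3 → E3) (lam : ι → ℝ) : Prop where
  field : ∀ i, CS Ω (e i)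
  orth : ∀ i j, (i = j → ipr (e i) (e j) = 1) ∧ (i ≠ j → ipr (e i) (e j) = 0)
  compl : ∀ v, CS Ω v → ∀ ε > 0, ∃ (F : Finset ι) (b : ι → ℝ),
    ∫ x, ‖v x - ∑ a ∈ F, b a • e a x‖ ^ 2 < ε
  nonneg : ∀ i, 0 ≤ lam i

/-- Classical solutions on `[0, T)` of `∂ₜ u + (u · ∇) u + ∇p = ν Δ u - D u`, `div u = 0` in `Ω`,
`u = 0` on `∂Ω` (extended by zero; the equation is tested with the complete system `e`; the
derivatives of order `≤ 2` are bounded in `Ω`, locally uniformly in time). -/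
structure SolL {ι : Type} (Ω : Set E3) (ν : ℝ) (e : ι → E3 → E3) (lam : ι → ℝ)
    (T : ℝ) (u : ℝ → E3 → E3) : Prop where
  cont : ∀ t ∈ Ico 0 T, Continuous (u t)
  zero : ∀ t ∈ Ico 0 T, ∀ x ∉ Ω, u t x = 0
  c2 : ∀ t ∈ Ico 0 T, ContDiffOn ℝ 2 (u t) Ω
  dv : ∀ t ∈ Ico 0 T, ∀ x ∈ Ω, dvg (u t) x = 0
  inH : ∀ t ∈ Ico 0 T, InH Ω (u t)
  bdd : ∀ T' < T, ∃ M, ∀ t ∈ Icc 0 T', ∀ x ∈ Ω,
    ‖u t x‖ ≤ M ∧ ‖fderiv ℝ (u t) x‖ ≤ M ∧ ‖fderiv ℝ (fderiv ℝ (u t)) x‖ ≤ M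
  eqn : ∀ i, ∀ t ∈ Ico 0 T, HasDerivWithinAt (fun τ => ipr (u τ) (e i))
    (-(lam i * ipr (u t) (e i)) - ν * dirf (u t) (e i) - adv (u t) (u t) (e i)) (Ico 0 T) t

/-! ### Axisymmetric flows in `ℝ³` -/

/-- The dissipation `D = ∑ lam i ⟨·, e i⟩ e i`: here `e i` is a complete orthonormal system in the
space of the axisymmetric divergence-free fields of `L²(ℝ³)`, it consists of smooth compactly
supported fields, each of them without swirl or with swirl only, `D` vanishes on the latter, and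
`lam i ≥ 0`. -/
structure DissX {ι : Type} (e : ι → E3 → E3) (lam : ι → ℝ) : Prop where
  field : ∀ i, CS univ (e i)
  split : ∀ i, Pol (e i) ∨ (Swl (e i) ∧ lam i = 0)
  orth : ∀ i j, (i = j → ipr (e i) (e j) = 1) ∧ (i ≠ j → ipr (e i) (e j) = 0)
  compl : ∀ v, CS univ v → Axi v → ∀ ε > 0, ∃ (F : Finset ι) (b : ι → ℝ),
    ∫ x, ‖v x - ∑ a ∈ F, b a • e a x‖ ^ 2 < ε
  nonneg : ∀ i, 0 ≤ lam i

/-- Axisymmetric smooth solutions on `[0, T)`, in `H^∞(ℝ³)` with locally uniform bounds, of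
`∂ₜ u + (u · ∇) u + ∇p = ν Δ u - D u`, `div u = 0` (the equation is tested with the complete
system `e`). -/
structure SolLX {ι : Type} (ν : ℝ) (e : ι → E3 → E3) (lam : ι → ℝ)
    (T : ℝ) (u : ℝ → E3 → E3) : Prop where
  smooth : ∀ t ∈ Ico 0 T, ContDiff ℝ (⊤ : ℕ∞) (u t)
  axi : ∀ t ∈ Ico 0 T, Axi (u t)
  dv : ∀ t ∈ Ico 0 T, ∀ x, dvg (u t) x = 0
  bdd : ∀ k : ℕ, ∀ T' < T, ∃ M, ∀ t ∈ Icc 0 T',
    (∀ x, ‖iteratedFDeriv ℝ k (u t) x‖ ≤ M) ∧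
      Integrable (fun x => ‖iteratedFDeriv ℝ k (u t) x‖ ^ 2) volume ∧
      ∫ x, ‖iteratedFDeriv ℝ k (u t) x‖ ^ 2 ≤ M
  eqn : ∀ i, ∀ t ∈ Ico 0 T, HasDerivWithinAt (fun τ => ipr (u τ) (e i))
    (-(lam i * ipr (u t) (e i)) - ν * dirf (u t) (e i) - adv (u t) (u t) (e i)) (Ico 0 T) t

/-! ### Statements -/

/-- The matrix with the damping rates satisfies the conditions. -/
def S_KDP : Prop := ∀ (J : Type) (g o : J → ℕ) (L C ℓ ρ : ℕ → ℝ) (B : ℕ → ℕ → ℝ) (R E : Ix J → ℝ)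
  (D : Ix J → Ix J → ℝ) (c : Ix J → Ix J → Ix J → ℝ) (S : ℕ → ℝ), KD g L C ℓ ρ B R E D c →
  (∀ m, 0 ≤ S m) → KD g L C ℓ ρ B R (fun i => E i + rt S o i) (Dp S o D) c

/-- The other modes are as small as we like if the damping rates are large. -/
def S_BOOTD : Prop := ∀ (J : Type) (g o : J → ℕ) (σ : J → J) (τ : J → ℝ)
  (L C ℓ ρ : ℕ → ℝ) (B : ℕ → ℕ → ℝ) (R E : Ix J → ℝ) (D : Ix J → Ix J → ℝ)
  (c : Ix J → Ix J → Ix J → ℝ) (Θ : ℝ) (β : J → ℝ) (S₁ : ℕ → ℝ), KD g L C ℓ ρ B R E D c →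
  Rot o σ τ → 0 < Θ → (∀ j, 0 < β j) → ∃ S : ℕ → ℝ, (∀ m, 1 ≤ S m) ∧ (∀ m, S₁ m ≤ S m) ∧
    ∀ N z, TSol Θ (fun _ => 0) o σ τ (Dp S o D) c N z →
    ∀ j, ∀ t ∈ Icc (0 : ℝ) Θ, |z (Sum.inr j) t| ≤ β j ∧ S (o j) * z (Sum.inr j) t ^ 2 ≤ β j

/-- Blow-up for the system of the modes. -/
def S_BLOWD : Prop := ∀ (J : Type) (g o : J → ℕ) (σ : J → J) (τ : J → ℝ)
  (lm L C M ℓ ρ : ℕ → ℝ) (B : ℕ → ℕ → ℝ) (R E : Ix J → ℝ) (D : Ix J → Ix J → ℝ)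
  (c : Ix J → Ix J → Ix J → ℝ) (β : J → ℝ) (S₁ : ℕ → ℝ), KD g L C ℓ ρ B R E D c →
  Seq lm L C ℓ M B → Rot o σ τ → (∀ j, 0 < β j) → ∃ S : ℕ → ℝ, (∀ n, 1 ≤ S n) ∧
    (∀ n, S₁ n ≤ S n) ∧ ∃ (T : ℝ) (z : Ix J → ℝ → ℝ),
    0 < T ∧ Sol L o σ τ (Dp S o D) c β (fun _ => 0) T z ∧
    ∀ j, ∀ t ∈ Ico 0 T, S (o j) * z (Sum.inr j) t ^ 2 ≤ β j

/-- The energy identity in `Ω`. -/
def S_ENERD : Prop := ∀ (Ω : Set E3) (ν : ℝ) (ι : Type) (e : ι → E3 → E3) (lam : ι → ℝ)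
  (T : ℝ) (u : ℝ → E3 → E3), IsOpen Ω → Bornology.IsBounded Ω →
  DissD Ω e lam → SolL Ω ν e lam T u → (∀ t ∈ Ico 0 T, ContDiff ℝ 2 (u t)) →
  (∀ T' < T, ∃ b : ι → ℝ, Summable b ∧ ∀ t ∈ Icc 0 T', ∀ i,
    |ipr (u t) (e i)| ≤ b i ∧ lam i * ipr (u t) (e i) ^ 2 ≤ b i) →
  ∀ t ∈ Ico 0 T, Summable (fun i => lam i * ipr (u t) (e i) ^ 2) ∧
    HasDerivWithinAt (fun τ => ipr (u τ) (u τ))
    (-(2 * (ν * dirf (u t) (u t) + ∑' i, lam i * ipr (u t) (e i) ^ 2))) (Ico 0 T) t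

/-- Uniqueness in `Ω`. -/
def S_UNIQD : Prop := ∀ (Ω : Set E3) (ν : ℝ) (ι : Type) (e : ι → E3 → E3) (lam : ι → ℝ)
  (T : ℝ) (u v : ℝ → E3 → E3), IsOpen Ω → Bornology.IsBounded Ω → 0 < ν →
  DissD Ω e lam → SolL Ω ν e lam T u → SolL Ω ν e lam T v → u 0 = v 0 →
  ∀ t ∈ Ico 0 T, u t = v t

/-- The energy identity in `ℝ³`. -/
def S_ENERRD : Prop := ∀ (ν : ℝ) (ι : Type) (e : ι → E3 → E3) (lam : ι → ℝ)
  (T : ℝ) (u : ℝ → E3 → E3), DissX e lam → SolLX ν e lam T u →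
  (∀ T' < T, ∃ b : ι → ℝ, Summable b ∧ ∀ t ∈ Icc 0 T', ∀ i,
    |ipr (u t) (e i)| ≤ b i ∧ lam i * ipr (u t) (e i) ^ 2 ≤ b i) →
  ∀ t ∈ Ico 0 T, Summable (fun i => lam i * ipr (u t) (e i) ^ 2) ∧
    HasDerivWithinAt (fun τ => ipr (u τ) (u τ))
    (-(2 * (ν * dirf (u t) (u t) + ∑' i, lam i * ipr (u t) (e i) ^ 2))) (Ico 0 T) t

/-- Uniqueness in `ℝ³`. -/
def S_UNIQRD : Prop := ∀ (ν : ℝ) (ι : Type) (e : ι → E3 → E3) (lam : ι → ℝ)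
  (T : ℝ) (u v : ℝ → E3 → E3), 0 < ν →
  DissX e lam → SolLX ν e lam T u → SolLX ν e lam T v → u 0 = v 0 →
  ∀ t ∈ Ico 0 T, u t = v t

/-- Blow-up for the Navier-Stokes equations in `Ω` with Dirichlet conditions and an additional
dissipation `D`, for every viscosity, every bounded open set and every point `p` of it. `D` vanishes
on a sequence of modes only, and is as strong as we like on the other modes (`Λ`). -/
def S_MAIND : Prop := ∀ (ν : ℝ) (Ω : Set E3) (p : E3) (Λ : (E3 → E3) → ℝ), 0 < ν → IsOpen Ω →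
  Bornology.IsBounded Ω → p ∈ Ω → ∃ (ι : Type) (e : ι → E3 → E3) (lam : ι → ℝ) (ψ : ℕ → ι)
    (T : ℝ) (u : ℝ → E3 → E3), DissD Ω e lam ∧
    -- the modes without damping concentrate at `p`; all the other modes are strongly damped
    (∀ n, lam (ψ n) = 0) ∧ (∀ i, (∀ n, i ≠ ψ n) → 0 < lam i ∧ Λ (e i) ≤ lam i) ∧
    (∀ ρ > 0, ∃ N, ∀ n ≥ N, tsupport (e (ψ n)) ⊆ ball p ρ) ∧
    0 < T ∧ SolL Ω ν e lam T u ∧ u 0 = e (ψ 0) ∧
    -- all derivatives in space are continuous in `ℝ³` and bounded, locally uniformly in time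
    (∀ t ∈ Ico 0 T, ContDiff ℝ (⊤ : ℕ∞) (u t)) ∧
    (∀ k : ℕ, ∀ T' < T, ∃ M, ∀ t ∈ Icc 0 T', ∀ x, ‖iteratedFDeriv ℝ k (u t) x‖ ≤ M) ∧
    -- uniqueness, and `T` is the maximal time of existence
    (∀ (T' : ℝ) (v : ℝ → E3 → E3), 0 < T' → SolL Ω ν e lam T' v → v 0 = u 0 →
      T' ≤ T ∧ ∀ t ∈ Ico 0 T', v t = u t) ∧
    -- the energy identity
    (∀ t ∈ Ico 0 T, Summable (fun i => lam i * ipr (u t) (e i) ^ 2) ∧
      HasDerivWithinAt (fun τ => ipr (u τ) (u τ))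
      (-(2 * (ν * dirf (u t) (u t) + ∑' i, lam i * ipr (u t) (e i) ^ 2))) (Ico 0 T) t) ∧
    -- no singularity at the time `T` away from `p`
    (∀ ρ > 0, ∀ k : ℕ, ∃ M, ∀ t ∈ Ico 0 T, ∀ x, ρ ≤ dist x p →
      ‖iteratedFDeriv ℝ k (u t) x‖ ≤ M) ∧
    -- blow-up of the velocity
    ∀ M : ℝ, ∃ t ∈ Ico 0 T, ∃ x, M < ‖u t x‖

/-- Blow-up for axisymmetric Navier-Stokes flows without swirl in `ℝ³` with an additional
dissipation `D`, which vanishes on the swirl. -/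
def S_MAINXD : Prop := ∀ (ν : ℝ) (Λ : (E3 → E3) → ℝ), 0 < ν →
  ∃ (ι : Type) (e : ι → E3 → E3) (lam : ι → ℝ) (ψ : ℕ → ι)
    (T : ℝ) (u : ℝ → E3 → E3), DissX e lam ∧
    -- the swirl-free modes without damping concentrate at the origin; all the other swirl-free
    -- modes are strongly damped
    (∀ n, Pol (e (ψ n)) ∧ lam (ψ n) = 0) ∧
    (∀ i, (∀ n, i ≠ ψ n) → (Swl (e i) ∧ lam i = 0) ∨
      (Pol (e i) ∧ 0 < lam i ∧ Λ (e i) ≤ lam i)) ∧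
    (∀ ρ > 0, ∃ N, ∀ n ≥ N, tsupport (e (ψ n)) ⊆ ball 0 ρ) ∧
    0 < T ∧ SolLX ν e lam T u ∧ u 0 = e (ψ 0) ∧ (∀ t ∈ Ico 0 T, Pol (u t)) ∧
    -- uniqueness, and `T` is the maximal time of existence
    (∀ (T' : ℝ) (v : ℝ → E3 → E3), 0 < T' → SolLX ν e lam T' v → v 0 = u 0 →
      T' ≤ T ∧ ∀ t ∈ Ico 0 T', v t = u t) ∧
    -- the energy identity
    (∀ t ∈ Ico 0 T, Summable (fun i => lam i * ipr (u t) (e i) ^ 2) ∧
      HasDerivWithinAt (fun τ => ipr (u τ) (u τ))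
      (-(2 * (ν * dirf (u t) (u t) + ∑' i, lam i * ipr (u t) (e i) ^ 2))) (Ico 0 T) t) ∧
    -- no singularity at the time `T` away from the origin
    (∀ ρ > 0, ∀ k : ℕ, ∃ M, ∀ t ∈ Ico 0 T, ∀ x, ρ ≤ dist x 0 →
      ‖iteratedFDeriv ℝ k (u t) x‖ ≤ M) ∧
    -- blow-up of the velocity
    ∀ M : ℝ, ∃ t ∈ Ico 0 T, ∃ x, M < ‖u t x‖

end Pool.Agent.Y8.DI
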