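import Pool.Agent.Y8.DI.Lem
import Pool.Agent.Y303.SK.XMain

/-! Project DI: the main theorem for axisymmetric flows in `ℝ³`, from the steps (adapted from
`Y303.SK.XMain`). -/

open Set Filter Topology MeasureTheory Metric

set_option autoImplicit false

namespace Pool.Agent.Y8.DI

open Pool.Agent.Y5 (E3)
open Pool.Agent.Y5.D (Ix qd vf3 Init)
open Pool.Agent.Y6.N
open Pool.Agent.Y6.K (Kz lv)
open Pool.Agent.Y303.SK

/-- damping rates of all the modes -/
noncomputable def lX (S : ℕ → ℝ) : Ix (ℕ × Bool) ⊕ ℕ → ℝ := Sum.elim (rt S oo) (fun _ => 0)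

theorem t_MAINXD_of (hBLOW : S_BLOWD) (hPK : S_PKX) (hPAR : S_PAR) (hBAS : S_BASX)
    (hFORM : S_FORM) (hMM : S_MM) (hINT : S_INT) (hDERB : S_DERB) (hCONC : S_CONC0)
    (hSWB : S_SWB) (hSPLIT : S_SPLIT) (hSYM : S_SYM)
    (hSER : S_SERR) (hENER : S_ENERRD) (hUNIQ : S_UNIQRD) : S_MAINXD := by
  intro ν Λ hν
  obtain ⟨Ψ, H, a, κ, h, q, q', hpk, hPΨ, hPH⟩ := hPK
  -- parameters
  set G₀ : ℝ := ν * (dirf Ψ Ψ + dirf H H) with hG₀
  have hG₀0 : 0 ≤ G₀ := mul_nonneg hν.le (add_nonneg (dirf_nonneg _) (dirf_nonneg _))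
  obtain ⟨r, α, ε, lm, L, hP'⟩ := hPAR a κ h q' (G₀ + 1) 1 hpk.a0 hpk.κ0 hpk.h0 hpk.q'0
    (by linarith) (by norm_num)
  have hP : Par a κ h q' G₀ 1 r α ε lm L := par_mono (by linarith) hP'
  have hq'1 : q' < 1 := hpk.qq.trans hpk.q1
  have hrpow : ∀ n, r n ≤ q' ^ n * r 0 := by
    intro n
    induction n with
    | zero => simp
    | succ n ih =>
      refine (hP.rstep n).trans ?_
      rw [pow_succ]
      calc q' * r n ≤ q' * (q' ^ n * r 0) := mul_le_mul_of_nonneg_left ih hpk.q'0.le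
        _ = q' ^ n * q' * r 0 := by ring
  have hr0 : ∀ n, r n ≤ r 0 := by
    intro n
    refine (hrpow n).trans ?_
    have h1 : q' ^ n ≤ 1 := pow_le_one₀ hpk.q'0.le hq'1.le
    have := hP.r0 0
    nlinarith
  have hrlim : Tendsto r atTop (𝓝 0) := by
    have h1 : Tendsto (fun n : ℕ => q' ^ n * r 0) atTop (𝓝 (0 * r 0)) :=
      (tendsto_pow_atTop_nhds_zero_of_lt_one hpk.q'0.le hq'1).mul_const _
    rw [zero_mul] at h1
    exact squeeze_zero (fun n => (hP.r0 n).le) hrpow h1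
  -- main modes
  obtain ⟨m1, m2, m3, m4, -⟩ := hMM 0 Ψ H a κ h q q' G₀ 1 r α ε lm L hpk hP
  set ψ : ℕ → E3 → E3 := psi 0 Ψ H r α ε with hψ
  have hcs0 : ∀ n, CS (ball 0 (r 0)) (ψ n) := fun n => (m1 n).mono (ball_subset_ball (hr0 n))
  have hcsψ : ∀ n, CS univ (ψ n) := fun n => (m1 n).mono (subset_univ _)
  have hpolψ : ∀ n, Pol (ψ n) := fun n =>
    ((hPΨ.sc (hP.r0 n)).smul (α n)).add ((hPH.sc (hP.r0 (n + 1))).smul (ε n))
  have hlow : ∀ n m, n < m → ∃ s θ, Low 0 (r m) H (ψ n) s θ := by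
    intro n m hnm
    rcases (show n + 1 ≤ m from hnm).eq_or_lt with h1 | h1
    · subst h1
      exact ⟨_, _, m2 n⟩
    · exact ⟨_, _, m3 n m h1⟩
  have hzero : ∀ n x, x ∉ ball (0 : E3) (r n) → ψ n x = 0 := fun n x hx => (m1 n).zero_of hx
  have horth' : ∀ n m, n < m → ipr (ψ n) (ψ m) = 0 := by
    intro n m hnm
    obtain ⟨s, θ, hl⟩ := hlow n m hnm
    have h1 := hcsψ n
    exact (hINT 0 Ψ H a κ h q q' G₀ 1 r α ε lm L hpk hP m (ψ n) (ψ n) s θ s θ h1 h1 hl
      hl).1
  have horth : ∀ m n, (m = n → ipr (ψ m) (ψ n) = 1) ∧ (m ≠ n → ipr (ψ m) (ψ n) = 0) := by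
    intro m n
    refine ⟨fun h1 => by rw [h1]; exact m4 n, fun h1 => ?_⟩
    rcases lt_or_gt_of_ne h1 with h2 | h2
    · exact horth' m n h2
    · rw [(hFORM.2.1 _ _).1]
      exact horth' n m h2
  -- the other modes
  obtain ⟨w, hw, hwP, hwC⟩ := hBAS (r 0) ψ (hP.r0 0) hcs0 hpolψ horth (by
      intro ρ' hρ'
      obtain ⟨N, hN⟩ := Filter.eventually_atTop.1 (hrlim.eventually (gt_mem_nhds hρ'))
      exact ⟨N, fun n hn x hx => hzero n x fun h1 => hx (ball_subset_ball (hN n hn).le h1)⟩)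
    (by
      intro n
      refine ⟨Am a r α n, r (n + 2), hP.r0 _, fun x hx => ?_⟩
      have := m3 n (n + 2) le_rfl x hx
      rw [zero_smul, add_zero] at this
      exact this)
  obtain ⟨gs, hgcs, hgS, hgo, hgC⟩ := hSWB
  -- the kernel
  obtain ⟨g, ℓ, ρ, R, E, K, hq⟩ := hCONC ν 0 Ψ H a κ h q q' 1 r α ε lm L hν hpk hP
    (ℕ × Bool) w hw
  obtain ⟨S, hS1, hSΛ, T, z, hT, hz, hzS⟩ := hBLOW (ℕ × Bool) g oo ss tt lm L _ _ ℓ ρ _ R E _ _
    (btx w) (fun m => |Λ (w (m, true))| + |Λ (w (m, false))|) K hq rot (btx_pos w)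
  set e : Ix (ℕ × Bool) → E3 → E3 := em ψ w with he
  have hecs : ∀ i, CS univ (e i) := by
    rintro (n | j)
    · exact hcsψ n
    · exact hw.cs j
  have hepol : ∀ i, Pol (e i) := by
    rintro (n | j)
    · exact hpolψ n
    · exact hwP j
  have heorth : ∀ i j, (i = j → ipr (e i) (e j) = 1) ∧ (i ≠ j → ipr (e i) (e j) = 0) := by
    rintro (n | j) (n' | j')
    · refine ⟨fun h1 => (horth n n').1 (Sum.inl_injective h1), fun h1 => (horth n n').2 fun h2 =>
        h1 (by rw [h2])⟩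
    · exact ⟨fun h1 => absurd h1 (by simp), fun _ => hw.perp n j'⟩
    · refine ⟨fun h1 => absurd h1 (by simp), fun _ => ?_⟩
      rw [(hFORM.2.1 _ _).1]
      exact hw.perp n' j
    · refine ⟨fun h1 => (hw.orth j j').1 (Sum.inr_injective h1), fun h1 => (hw.orth j j').2
        fun h2 => h1 (by rw [h2])⟩
  set e' : Ix (ℕ × Bool) ⊕ ℕ → E3 → E3 := Sum.elim e gs with he'
  have hskew : DissX e' (lX S) := by
    refine ⟨?_, ?_, ?_, ?_, ?_⟩
    · rintro (i | k)
      · exact hecs i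
      · exact hgcs k
    · rintro (i | k)
      · exact Or.inl (hepol i)
      · exact Or.inr ⟨hgS k, rfl⟩
    · rintro (i | k) (j | l)
      · exact ⟨fun h1 => (heorth i j).1 (Sum.inl_injective h1), fun h1 => (heorth i j).2 fun h2 =>
          h1 (by rw [h2])⟩
      · exact ⟨fun h1 => absurd h1 (by simp), fun _ =>
          (hSYM (e i) (gs l) (hecs i).smooth (hepol i) (hgcs l) (hgS l)).1⟩
      · refine ⟨fun h1 => absurd h1 (by simp), fun _ => ?_⟩
        rw [(hFORM.2.1 _ _).1]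
        exact (hSYM (e j) (gs k) (hecs j).smooth (hepol j) (hgcs k) (hgS k)).1
      · exact ⟨fun h1 => (hgo k l).1 (Sum.inr_injective h1), fun h1 => (hgo k l).2 fun h2 =>
          h1 (by rw [h2])⟩
    · intro v hv hvA
      obtain ⟨v₁, v₂, hv1, hp1, hv2, hs2, hvv⟩ := hSPLIT v hv hvA
      exact compl_sum hecs hgcs hv1 hv2 hvv (hwC v₁ hv1 hp1) (hgC v₂ hv2 hs2)
    · rintro ((n | j) | k)
      · exact le_rfl
      · exact zero_le_one.trans (hS1 _)
      · exact le_rfl
  -- sizes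
  have hLpos : ∀ n, 0 < L n := fun n => lt_of_lt_of_le one_pos (Bl.L_one hq n)
  have hLs : Summable (fun n => (L n)⁻¹) := Bl.L_inv_sum hq
  set V : ℝ := √((volume (ball (0 : E3) (r 0))).toReal) with hV
  have hV0 : 0 ≤ V := Real.sqrt_nonneg _
  have hnl0 : ∀ (k : ℕ) (f : E3 → E3), 0 ≤ nk k f + l2 k f := fun k f =>
    add_nonneg (nk_nonneg k f) (l2_nonneg k f)
  have hbd : ∀ k : ℕ, ∀ T' < T, ∃ b : Ix (ℕ × Bool) → ℝ, Summable b ∧ (∀ i, 0 ≤ b i) ∧
      ∀ t ∈ Icc 0 T', ∀ i, |z i t| * (nk k (e i) + l2 k (e i)) ≤ b i := by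
    intro k T' hT'
    obtain ⟨X, m, hX⟩ := hDERB 0 Ψ H a κ h q q' G₀ 1 r α ε lm L hpk hP k
    obtain ⟨Y, hY⟩ := hz.reg (m + 1) T' hT'
    refine ⟨Sum.elim (fun n => (1 + V) * |X| * |Y| * (L n)⁻¹)
      (fun j => btx w j * (nk k (w j) + l2 k (w j))), ?_, ?_, ?_⟩
    · have h3 : Summable ((Sum.elim (fun n => (1 + V) * |X| * |Y| * (L n)⁻¹)
          (fun j => btx w j * (nk k (w j) + l2 k (w j)))) ∘ Sum.inl) := hLs.mul_left _
      have h4 : Summable ((Sum.elim (fun n => (1 + V) * |X| * |Y| * (L n)⁻¹)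
          (fun j => btx w j * (nk k (w j) + l2 k (w j)))) ∘ Sum.inr) := btx_nk w k
      exact (HasSum.sum h3.hasSum h4.hasSum).summable
    · rintro (n | j)
      · have := hLpos n
        simp only [Sum.elim_inl]
        positivity
      · exact mul_nonneg (btx_pos w j).le (hnl0 k _)
    · intro t ht
      rintro (n | j)
      · have h1 := hY t ht n
        have h2 := hX n
        have h3 := hLpos n
        simp only [Sum.elim_inl]
        have h20 : nk k (ψ n) + l2 k (ψ n) ≤ (1 + V) * (|X| * L n ^ m) := by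
          have h21 := l2_le (hcs0 n) k
          have h22 : nk k (ψ n) ≤ |X| * L n ^ m :=
            h2.trans (mul_le_mul_of_nonneg_right (le_abs_self X) (pow_pos h3 m).le)
          have h23 : nk k (ψ n) * V ≤ |X| * L n ^ m * V := mul_le_mul_of_nonneg_right h22 hV0
          have h24 : l2 k (ψ n) ≤ |X| * L n ^ m * V := h21.trans h23
          nlinarith
        have h4 : |z (Sum.inl n) t| * (nk k (ψ n) + l2 k (ψ n)) ≤
            |z (Sum.inl n) t| * ((1 + V) * (|X| * L n ^ m)) :=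
          mul_le_mul_of_nonneg_left h20 (abs_nonneg _)
        refine h4.trans ?_
        have h5 : |z (Sum.inl n) t| * L n ^ m ≤ |Y| * (L n)⁻¹ := by
          rw [← div_eq_mul_inv, le_div_iff₀ h3]
          calc |z (Sum.inl n) t| * L n ^ m * L n = L n ^ (m + 1) * |z (Sum.inl n) t| := by ring
            _ ≤ Y := h1
            _ ≤ |Y| := le_abs_self Y
        have h6 : 0 ≤ (1 + V) * |X| := by positivity
        calc |z (Sum.inl n) t| * ((1 + V) * (|X| * L n ^ m))
            = (1 + V) * |X| * (|z (Sum.inl n) t| * L n ^ m) := by ring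
          _ ≤ (1 + V) * |X| * (|Y| * (L n)⁻¹) := mul_le_mul_of_nonneg_left h5 h6
          _ = (1 + V) * |X| * |Y| * (L n)⁻¹ := by ring
      · exact mul_le_mul_of_nonneg_right (hz.oth j t ⟨ht.1, ht.2.trans_lt hT'⟩) (hnl0 k _)
  have hsum : ∀ t ∈ Ico 0 T, ∀ k : ℕ, Summable (fun i => |z i t| * (nk k (e i) + l2 k (e i))) := by
    intro t ht k
    obtain ⟨b, hb1, -, hb3⟩ := hbd k t ht.2
    exact Summable.of_nonneg_of_le (fun i => mul_nonneg (abs_nonneg _) (hnl0 k _))
      (hb3 t ⟨ht.1, le_rfl⟩) hb1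
  have hle1 : ∀ (k : ℕ) t i, |z i t| * nk k (e i) ≤ |z i t| * (nk k (e i) + l2 k (e i)) :=
    fun k t i => mul_le_mul_of_nonneg_left (by linarith [l2_nonneg k (e i)]) (abs_nonneg _)
  have hle2 : ∀ (k : ℕ) t i, |z i t| * l2 k (e i) ≤ |z i t| * (nk k (e i) + l2 k (e i)) :=
    fun k t i => mul_le_mul_of_nonneg_left (by linarith [nk_nonneg k (e i)]) (abs_nonneg _)
  have hco : Countable (Ix (ℕ × Bool)) := inferInstance
  have habs : ∀ t ∈ Ico 0 T, Summable (fun a => |z a t|) := by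
    intro t ht
    obtain ⟨Y, hY⟩ := hz.reg 1 t ht.2
    refine Summable.of_nonneg_of_le (f := Sum.elim (fun n => Y * (L n)⁻¹) (btx w))
      (fun a => abs_nonneg _) ?_ ?_
    · rintro (n | j)
      · simp only [Sum.elim_inl]
        rw [← div_eq_mul_inv, le_div_iff₀ (hLpos n), mul_comm]
        have := hY t ⟨ht.1, le_rfl⟩ n
        rwa [pow_one] at this
      · exact hz.oth j t ht
    · have h3 : Summable ((Sum.elim (fun n => Y * (L n)⁻¹) (btx w)) ∘ Sum.inl) :=
        hLs.mul_left _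
      have h4 : Summable ((Sum.elim (fun n => Y * (L n)⁻¹) (btx w)) ∘ Sum.inr) := btx_summ w
      exact (HasSum.sum h3.hasSum h4.hasSum).summable
  have hS := fun t (ht : t ∈ Ico 0 T) => hSER (Ix (ℕ × Bool)) e (fun i => z i t) hecs hepol
    heorth (hsum t ht)
  set u : ℝ → E3 → E3 := fun t => ser e (fun i => z i t) with hu
  have hpolu : ∀ t ∈ Ico 0 T, Pol (u t) := fun t ht => (hS t ht).2.1
  have hcoef : ∀ t ∈ Ico 0 T, ∀ i, ipr (u t) (e i) = z i t := fun t ht i =>
    (hS t ht).2.2.2.2.2.1 i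
  have hsw : ∀ t ∈ Ico 0 T, ∀ k, ipr (u t) (gs k) = 0 ∧ dirf (u t) (gs k) = 0 ∧
      adv (u t) (u t) (gs k) = 0 := fun t ht k =>
    hSYM (u t) (gs k) (hS t ht).1 (hpolu t ht) (hgcs k) (hgS k)
  have hsol : SolLX ν e' (lX S) T u := by
    refine ⟨fun t ht => (hS t ht).1, fun t ht => (hpolu t ht).axi,
      fun t ht x => (hS t ht).2.2.2.2.1 x, ?_, ?_⟩
    · intro k T' hT'
      obtain ⟨b, hb1, hb2, hb3⟩ := hbd k T' hT'
      set B : ℝ := ∑' i, b i with hB
      refine ⟨max B (B ^ 2), fun t ht => ?_⟩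
      have ht' : t ∈ Ico 0 T := ⟨ht.1, ht.2.trans_lt hT'⟩
      have s1 : Summable (fun i => |z i t| * nk k (e i)) :=
        Summable.of_nonneg_of_le (fun i => mul_nonneg (abs_nonneg _) (nk_nonneg _ _))
          (hle1 k t) (hsum t ht' k)
      have s2 : Summable (fun i => |z i t| * l2 k (e i)) :=
        Summable.of_nonneg_of_le (fun i => mul_nonneg (abs_nonneg _) (l2_nonneg _ _))
          (hle2 k t) (hsum t ht' k)
      have c1 : ∑' i, |z i t| * nk k (e i) ≤ B :=
        s1.tsum_le_tsum (fun i => (hle1 k t i).trans (hb3 t ht i)) hb1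
      have c2 : ∑' i, |z i t| * l2 k (e i) ≤ B :=
        s2.tsum_le_tsum (fun i => (hle2 k t i).trans (hb3 t ht i)) hb1
      have c0 : 0 ≤ ∑' i, |z i t| * l2 k (e i) :=
        tsum_nonneg fun i => mul_nonneg (abs_nonneg _) (l2_nonneg _ _)
      obtain ⟨i1, i2⟩ := (hS t ht').2.2.2.1 k
      refine ⟨fun x => (((hS t ht').2.2.1 k x).trans c1).trans (le_max_left _ _), i1, ?_⟩
      exact (i2.trans (pow_le_pow_left₀ c0 c2 2)).trans (le_max_right _ _)
    · rintro (i | k) t ht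
      · have h1 := hz.deriv i t ht
        have h2 : HasDerivWithinAt (fun τ => ipr (u τ) (e i))
            (Kz (fun _ => 0) oo ss tt (fun a => z a t) i -
              lin (Dp S oo (DD ν e)) (fun a => z a t) i +
              qd (cc e) (fun a => z a t) i) (Ico 0 T) t :=
          h1.congr (fun τ hτ => hcoef τ hτ i) (hcoef t ht i)
        refine h2.congr_deriv ?_
        show Kz (fun _ => 0) oo ss tt (fun a => z a t) i -
              lin (Dp S oo (DD ν e)) (fun a => z a t) i +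
              qd (cc e) (fun a => z a t) i = -(rt S oo i * ipr (u t) (e i)) -
            ν * dirf (u t) (e i) - adv (u t) (u t) (e i)
        have e1 : Kz (fun _ => 0) oo ss tt (fun a => z a t) i = 0 := by
          rcases i with n | j
          · rfl
          · show (0 : ℝ) * tt j * _ = 0
            rw [zero_mul, zero_mul]
        have e4 := lin_Dp (o := oo) (S := S) K (habs t ht) i
        have e2 : lin (DD ν e) (fun a => z a t) i = ν * dirf (u t) (e i) := by
          have h3 := (hS t ht).2.2.2.2.2.2.1 i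
          have h3' : dirf (u t) (e i) = ∑' b, dirf (e i) (e b) * z b t := h3
          rw [h3', ← tsum_mul_left]
          unfold lin DD
          exact tsum_congr fun b => by ring
        have e3 : qd (cc e) (fun a => z a t) i = -adv (u t) (u t) (e i) := by
          have h3 := (hS t ht).2.2.2.2.2.2.2 i
          have h3' : adv (u t) (u t) (e i) =
            ∑' p : Ix (ℕ × Bool) × Ix (ℕ × Bool), adv (e p.1) (e p.2) (e i) * z p.1 t * z p.2 t :=
              h3
          rw [h3', ← tsum_neg]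
          unfold qd cc
          exact tsum_congr fun b => by ring
        rw [e1, e4, e2, e3, hcoef t ht]
        ring
      · show HasDerivWithinAt (fun τ => ipr (u τ) (gs k))
          (-(0 * ipr (u t) (gs k)) - ν * dirf (u t) (gs k) - adv (u t) (u t) (gs k)) (Ico 0 T) t
        obtain ⟨g1, g2, g3⟩ := hsw t ht k
        rw [g1, g2, g3]
        have h2 : HasDerivWithinAt (fun _ : ℝ => (0 : ℝ)) 0 (Ico 0 T) t :=
          hasDerivWithinAt_const _ _ _
        exact (h2.congr (fun τ hτ => (hsw τ hτ k).1) g1).congr_deriv (by ring)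
  have hu0 : u 0 = e (Sum.inl 0) := by
    funext x
    show ∑' i, z i 0 • e i x = e (Sum.inl 0) x
    rw [tsum_eq_single (Sum.inl 0)]
    · rw [hz.init.1, one_smul]
    · rintro (n | j) hi
      · rcases n with _ | n
        · exact absurd rfl hi
        · rw [hz.init.2.1, zero_smul]
      · rw [hz.init.2.2, zero_smul]
  -- blow-up
  have hblow : ∀ M : ℝ, ∃ t ∈ Ico 0 T, ∃ x, M < ‖u t x‖ := by
    intro M
    by_contra hcon
    push Not at hcon
    obtain ⟨n, hn⟩ := hP.small (M * √((volume (ball (0 : E3) 1)).toReal))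
    obtain ⟨t, ht, hbig⟩ := hz.big n
    have h1 := ipr_small (hP.r0 n) (m1 n) (m4 n) (hcon t ht)
    have h2 : ipr (u t) (ψ n) = z (Sum.inl n) t := hcoef t ht (Sum.inl n)
    rw [h2] at h1
    linarith
  refine ⟨Ix (ℕ × Bool) ⊕ ℕ, e', lX S, fun n => Sum.inl (Sum.inl n), T, u, hskew,
    fun n => ⟨hpolψ n, rfl⟩, ?_, ?_, hT, hsol, hu0, hpolu, ?_, ?_, ?_, hblow⟩
  · rintro ((n | j) | k) hi
    · exact absurd rfl (hi n)
    · refine Or.inr ⟨hwP j, lt_of_lt_of_le one_pos (hS1 _), ?_⟩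
      show Λ (w j) ≤ S (oo j)
      refine le_trans ?_ (hSΛ (oo j))
      have h1 := le_abs_self (Λ (w j))
      have h2 := abs_nonneg (Λ (w (j.1, true)))
      have h3 := abs_nonneg (Λ (w (j.1, false)))
      obtain ⟨m, c⟩ := j
      cases c
      · show Λ (w (m, false)) ≤ |Λ (w (m, true))| + |Λ (w (m, false))|
        linarith
      · show Λ (w (m, true)) ≤ |Λ (w (m, true))| + |Λ (w (m, false))|
        linarith
    · exact Or.inl ⟨hgS k, rfl⟩
  · intro ρ' hρ'
    obtain ⟨N, hN⟩ := Filter.eventually_atTop.1 (hrlim.eventually (gt_mem_nhds hρ'))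
    exact ⟨N, fun n hn => (m1 n).supp.trans (ball_subset_ball (hN n hn).le)⟩
  · intro T' v hT' hv hv0
    have heq : ∀ t ∈ Ico 0 (min T' T), v t = u t :=
      hUNIQ ν _ e' (lX S) (min T' T) v u hν hskew (hv.mono (min_le_left _ _))
        (hsol.mono (min_le_right _ _)) hv0
    have hle : T' ≤ T := by
      by_contra hcon
      rw [not_le] at hcon
      rw [min_eq_right hcon.le] at heq
      obtain ⟨M, hM⟩ := hv.bdd 0 T hcon
      obtain ⟨t, ht, x, hx⟩ := hblow |M|
      rw [← heq t ht] at hx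
      have := (hM t ⟨ht.1, ht.2.le⟩).1 x
      rw [norm_iteratedFDeriv_zero] at this
      have h2 := le_abs_self M
      linarith
    refine ⟨hle, fun t ht => ?_⟩
    rw [min_eq_left hle] at heq
    exact heq t ht
  · refine hENER ν _ e' (lX S) T u hskew hsol ?_
    intro T' hT'
    obtain ⟨Y, hY⟩ := hz.reg 1 T' hT'
    refine ⟨Sum.elim (Sum.elim (fun n => |Y| * (L n)⁻¹) (btx w)) (fun _ => 0), ?_, ?_⟩
    · have h3 : Summable ((Sum.elim (fun n => |Y| * (L n)⁻¹) (btx w)) ∘ Sum.inl) :=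
        hLs.mul_left _
      have h4 : Summable ((Sum.elim (fun n => |Y| * (L n)⁻¹) (btx w)) ∘ Sum.inr) := btx_summ w
      have h5 : Summable (Sum.elim (fun n => |Y| * (L n)⁻¹) (btx w)) :=
        (HasSum.sum h3.hasSum h4.hasSum).summable
      have h6 : Summable ((Sum.elim (Sum.elim (fun n => |Y| * (L n)⁻¹) (btx w))
          (fun _ : ℕ => (0 : ℝ))) ∘ Sum.inl) := h5
      have h7 : Summable ((Sum.elim (Sum.elim (fun n => |Y| * (L n)⁻¹) (btx w))
          (fun _ : ℕ => (0 : ℝ))) ∘ Sum.inr) := summable_zero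
      exact (HasSum.sum h6.hasSum h7.hasSum).summable
    · rintro t ht (i | k)
      · have ht' : t ∈ Ico 0 T := ⟨ht.1, ht.2.trans_lt hT'⟩
        show |ipr (u t) (e i)| ≤ Sum.elim (fun n => |Y| * (L n)⁻¹) (btx w) i ∧
          rt S oo i * ipr (u t) (e i) ^ 2 ≤ Sum.elim (fun n => |Y| * (L n)⁻¹) (btx w) i
        rw [hcoef t ht']
        rcases i with n | j
        · simp only [Sum.elim_inl]
          have h5 := hLpos n
          refine ⟨?_, ?_⟩
          · rw [← div_eq_mul_inv, le_div_iff₀ h5, mul_comm]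
            have := hY t ht n
            rw [pow_one] at this
            exact this.trans (le_abs_self _)
          · show (0 : ℝ) * _ ≤ _
            rw [zero_mul]
            positivity
        · exact ⟨hz.oth j t ht', hzS j t ht'⟩
      · have ht' : t ∈ Ico 0 T := ⟨ht.1, ht.2.trans_lt hT'⟩
        show |ipr (u t) (gs k)| ≤ 0 ∧ (0 : ℝ) * ipr (u t) (gs k) ^ 2 ≤ 0
        rw [(hsw t ht' k).1, abs_zero]
        simp
  · refine away (p := 0) (r := r) (β := btx w) (W := fun k a => nk k (e a) + l2 k (e a))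
      (fun k a => by linarith [l2_nonneg k (e a)]) hrlim (fun n x hx => hzero n x hx) ?_ hsum ?_
      (fun t ht j => hz.oth j t ht) (fun k => ?_)
    · intro z' hz' k x
      exact (hSER (Ix (ℕ × Bool)) e z' hecs hepol heorth hz').2.2.1 k x
    · intro t ht n
      exact Bl.abs_le_one (hz.en t ht).1 (hz.en t ht).2 (Sum.inl n)
    · refine Summable.of_nonneg_of_le
        (fun j => mul_nonneg (btx_pos w j).le (nk_nonneg _ _)) (fun j => ?_) (btx_nk w k)
      refine mul_le_mul_of_nonneg_left ?_ (btx_pos w j).le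
      show nk k (w j) ≤ nk k (w j) + l2 k (w j)
      linarith [l2_nonneg k (w j)]

end Pool.Agent.Y8.DI
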