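import Pool.Agent.Y8.DI.Blow
import Pool.Agent.Y8.DI.MainD
import Pool.Agent.Y8.DI.MainXD
import Pool.Agent.Y303.SK.XAll
import Pool.Agent.Y954.DI.Ener
import Pool.Agent.Y407.DI.Uniq
import Pool.Agent.Y813.DI.Ener
import Pool.Agent.Y170.DI.UniqR

/-! Project DI: everything together. -/

set_option autoImplicit false

namespace Pool.Agent.Y8.DI

open Pool.Agent.Y303.SK

theorem t_MAIND : S_MAIND :=
  t_MAIND_of t_BLOWD Pool.Agent.Y448.SK.t_PK Pool.Agent.Y302.SK.t_PAR t_BAS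
    Pool.Agent.Y317.SK.t_FORM Pool.Agent.Y841.SK.t_MM t_INT Pool.Agent.Y153.SKD.t_DERB t_CONC
    Pool.Agent.Y427.SK.t_SER Pool.Agent.Y954.DI.t_ENERD Pool.Agent.Y407.DI.t_UNIQD

theorem t_MAINXD : S_MAINXD :=
  t_MAINXD_of t_BLOWD Pool.Agent.Y907.SKX.t_PKX Pool.Agent.Y302.SK.t_PAR
    (Pool.Agent.Y48.SK.t_BASX Pool.Agent.Y784.SKX.t_DENSX Pool.Agent.Y302.SK.t_GS
      Pool.Agent.Y907.SKX.t_PKX)
    Pool.Agent.Y317.SK.t_FORM Pool.Agent.Y841.SK.t_MM t_INT Pool.Agent.Y153.SKD.t_DERB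
    (Pool.Agent.Y495.SKX.t_CONC0 Pool.Agent.Y841.SK.t_MM t_INT
      Pool.Agent.Y317.SK.t_FORM Pool.Agent.Y232.SK.t_HDY)
    (Pool.Agent.Y455.SKX.t_SWB Pool.Agent.Y302.SK.t_GS)
    Pool.Agent.Y366.SKX.t_SPLIT Pool.Agent.Y366.SKX.t_SYM Pool.Agent.Y678.SKX.t_SERR
    (Pool.Agent.Y813.DI.t_ENERRD Pool.Agent.Y784.SKX.t_DENSR)
    (Pool.Agent.Y170.DI.t_UNIQRD Pool.Agent.Y784.SKX.t_DENSR)

end Pool.Agent.Y8.DI
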