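import Pool.Agent.Y8.DI.Defs

/-! Project DI: the matrix with the damping rates, and smallness of the damped modes. -/

open Set Filter Topology MeasureTheory Metric

set_option autoImplicit false

namespace Pool.Agent.Y8.DI

open Pool.Agent.Y5 (E3)
open Pool.Agent.Y5.D (Ix qd vf3 Init)
open Pool.Agent.Y6.N
open Pool.Agent.Y6.K (Kz lv)
open Pool.Agent.Y303.SK

section

variable {J : Type} {g o : J → ℕ} {σ : J → J} {τ : J → ℝ} {lm L C M ℓ ρ φ S : ℕ → ℝ}
  {B : ℕ → ℕ → ℝ} {R E : Ix J → ℝ} {D : Ix J → Ix J → ℝ} {c : Ix J → Ix J → Ix J → ℝ} {Θ : ℝ}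

lemma rt_nonneg (hS : ∀ m, 0 ≤ S m) (a : Ix J) : 0 ≤ rt S o a := by
  rcases a with n | j
  · exact le_rfl
  · exact hS _

lemma Dp_inl (n : ℕ) (b : Ix J) : Dp S o D (Sum.inl n) b = D (Sum.inl n) b := by
  unfold Dp
  simp [rt]

lemma Dp_sum (i : Ix J) (s : Finset (Ix J)) (z : Ix J → ℝ) :
    ∑ b ∈ s, Dp S o D i b * z b =
      ∑ b ∈ s, D i b * z b + (open Classical in if i ∈ s then rt S o i * z i else 0) := by
  classical
  unfold Dp
  simp only [add_mul, Finset.sum_add_distrib, ite_mul, zero_mul]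
  congr 1
  rw [Finset.sum_ite_eq]

theorem t_KDP : S_KDP := by
  intro J g o L C ℓ ρ B R E D c S K hS
  classical
  refine ⟨K.anti, K.bil, K.tab, K.sepm, K.sepo, ?_, ?_, ?_, ?_, ?_, K.ρ0, K.ρinf⟩
  · intro a b
    unfold Dp
    rw [K.symm a b]
    by_cases h : a = b
    · subst h; rfl
    · rw [if_neg h, if_neg (Ne.symm h)]
  · intro i s z
    rw [Dp_sum]
    have h1 := K.dlin i s z
    have h2 : |(if i ∈ s then rt S o i * z i else 0)| ≤ rt S o i * √(∑ b ∈ s, z b ^ 2) := by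
      by_cases h : i ∈ s
      · rw [if_pos h, abs_mul, abs_of_nonneg (rt_nonneg hS i)]
        refine mul_le_mul_of_nonneg_left ?_ (rt_nonneg hS i)
        refine Real.abs_le_sqrt ?_
        exact Finset.single_le_sum (f := fun b => z b ^ 2) (fun b _ => sq_nonneg _) h
      · rw [if_neg h, abs_zero]
        exact mul_nonneg (rt_nonneg hS i) (Real.sqrt_nonneg _)
    calc _ ≤ |∑ b ∈ s, D i b * z b| + |(if i ∈ s then rt S o i * z i else 0)| := abs_add_le _ _
      _ ≤ _ := by rw [add_mul]; exact add_le_add h1 h2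
  · intro m n
    rw [Dp_inl]
    exact K.dmain m n
  · intro n w h
    rw [Dp_inl]
    exact K.dsep n w h
  · intro s z
    refine (K.coer s z).trans ?_
    refine Finset.sum_le_sum fun a ha => ?_
    have h1 : ∑ b ∈ s, Dp S o D a b * z a * z b =
        ∑ b ∈ s, D a b * z a * z b + rt S o a * z a * z a := by
      have e1 : ∑ b ∈ s, Dp S o D a b * z a * z b = (∑ b ∈ s, Dp S o D a b * z b) * z a := by
        rw [Finset.sum_mul]
        exact Finset.sum_congr rfl fun b _ => by ring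
      have e2 : ∑ b ∈ s, D a b * z a * z b = (∑ b ∈ s, D a b * z b) * z a := by
        rw [Finset.sum_mul]
        exact Finset.sum_congr rfl fun b _ => by ring
      rw [e1, e2, Dp_sum, if_pos ha]
      ring
    rw [h1]
    have h2 : 0 ≤ rt S o a * z a * z a := by
      rw [mul_assoc]
      exact mul_nonneg (rt_nonneg hS a) (mul_self_nonneg _)
    linarith

/-- `|∑ D i b z b| ≤ E i` for the solutions -/
lemma lin_le (K : KD g L C ℓ ρ B R E D c) {z : Ix J → ℝ} {F : Finset (Ix J)}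
    (hz : ∀ a ∉ F, z a = 0) (hen : ∑' a, z a ^ 2 ≤ 1) (i : Ix J) : |lin D z i| ≤ |E i| := by
  have h1 : lin D z i = ∑ b ∈ F, D i b * z b := by
    unfold lin
    exact tsum_eq_sum fun b hb => by rw [hz b hb, mul_zero]
  have h2 : ∑' a, z a ^ 2 = ∑ a ∈ F, z a ^ 2 :=
    tsum_eq_sum fun b hb => by rw [hz b hb]; norm_num
  have h3 : √(∑ b ∈ F, z b ^ 2) ≤ 1 := by
    rw [Real.sqrt_le_one]
    rw [← h2]; exact hen
  rw [h1]
  refine (K.dlin i F z).trans ?_
  calc E i * √(∑ b ∈ F, z b ^ 2) ≤ |E i| * √(∑ b ∈ F, z b ^ 2) :=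
        mul_le_mul_of_nonneg_right (le_abs_self _) (Real.sqrt_nonneg _)
    _ ≤ |E i| * 1 := mul_le_mul_of_nonneg_left h3 (abs_nonneg _)
    _ = |E i| := mul_one _

/-- `|∑ c i a b z a z b| ≤ R i` for the solutions -/
lemma qd_le (K : KD g L C ℓ ρ B R E D c) {z : Ix J → ℝ} {F : Finset (Ix J)}
    (hz : ∀ a ∉ F, z a = 0) (hen : ∑' a, z a ^ 2 ≤ 1) (i : Ix J) : |qd c z i| ≤ |R i| := by
  have h1 : qd c z i = ∑ a ∈ F, ∑ b ∈ F, c i a b * z a * z b := by
    unfold qd
    rw [← Finset.sum_product']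
    refine tsum_eq_sum fun p hp => ?_
    rw [Finset.mem_product, not_and_or] at hp
    rcases hp with hp | hp
    · rw [hz _ hp]; ring
    · rw [hz _ hp]; ring
  have h2 : ∑' a, z a ^ 2 = ∑ a ∈ F, z a ^ 2 :=
    tsum_eq_sum fun b hb => by rw [hz b hb]; norm_num
  have h3 : √(∑ b ∈ F, z b ^ 2) ≤ 1 := by
    rw [Real.sqrt_le_one]
    rw [← h2]; exact hen
  rw [h1]
  refine (K.bil i F z z).trans ?_
  have h4 : √(∑ b ∈ F, z b ^ 2) * √(∑ b ∈ F, z b ^ 2) ≤ 1 :=
    mul_le_one₀ h3 (Real.sqrt_nonneg _) h3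
  have h5 : 0 ≤ √(∑ b ∈ F, z b ^ 2) * √(∑ b ∈ F, z b ^ 2) :=
    mul_nonneg (Real.sqrt_nonneg _) (Real.sqrt_nonneg _)
  calc R i * (√(∑ b ∈ F, z b ^ 2) * √(∑ b ∈ F, z b ^ 2))
      ≤ |R i| * (√(∑ b ∈ F, z b ^ 2) * √(∑ b ∈ F, z b ^ 2)) :=
        mul_le_mul_of_nonneg_right (le_abs_self _) h5
    _ ≤ |R i| * 1 := mul_le_mul_of_nonneg_left h4 (abs_nonneg _)
    _ = |R i| := mul_one _

end

/-- a damped quantity -/
lemma damped {v f : ℝ → ℝ} {Θ S A : ℝ} (hS : 0 < S) (hA : 0 ≤ A)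
    (hd : ∀ t ∈ Icc 0 Θ, HasDerivWithinAt v (-(S * v t) + f t) (Icc 0 Θ) t)
    (hf : ∀ t ∈ Icc 0 Θ, |f t| ≤ A) (h0 : v 0 = 0) : ∀ t ∈ Icc 0 Θ, |v t| ≤ A / S := by
  -- upper bound for one sign
  have key : ∀ (v f : ℝ → ℝ), (∀ t ∈ Icc 0 Θ, HasDerivWithinAt v (-(S * v t) + f t) (Icc 0 Θ) t) →
      (∀ t ∈ Icc 0 Θ, |f t| ≤ A) → v 0 = 0 → ∀ t ∈ Icc 0 Θ, v t ≤ A / S := by
    intro v f hd hf h0 t ht
    set w : ℝ → ℝ := fun s => Real.exp (S * s) * (v s - A / S) with hw
    have hwd : ∀ s ∈ Icc 0 Θ, HasDerivWithinAt w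
        (Real.exp (S * s) * (f s - A)) (Icc 0 Θ) s := by
      intro s hs
      have h1 : HasDerivWithinAt (fun s => Real.exp (S * s)) (Real.exp (S * s) * S)
          (Icc 0 Θ) s := by
        have := ((hasDerivAt_id s).const_mul S).exp
        simp only [id, mul_one] at this
        exact this.hasDerivWithinAt
      have h2 := h1.mul ((hd s hs).sub_const (A / S))
      refine h2.congr_deriv ?_
      field_simp
      ring
    have hanti : AntitoneOn w (Icc 0 Θ) := by
      refine antitoneOn_of_deriv_nonpos (convex_Icc 0 Θ)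
        (fun s hs => (hwd s hs).continuousWithinAt) ?_ ?_
      · intro s hs
        rw [interior_Icc] at hs
        exact ((hwd s (Ioo_subset_Icc_self hs)).hasDerivAt
          (Icc_mem_nhds hs.1 hs.2)).differentiableAt.differentiableWithinAt
      · intro s hs
        rw [interior_Icc] at hs
        rw [((hwd s (Ioo_subset_Icc_self hs)).hasDerivAt (Icc_mem_nhds hs.1 hs.2)).deriv]
        have := (abs_le.1 (hf s (Ioo_subset_Icc_self hs))).2
        have h3 := Real.exp_pos (S * s)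
        nlinarith
    have hΘ : (0 : ℝ) ∈ Icc 0 Θ := ⟨le_rfl, ht.1.trans ht.2⟩
    have h4 := hanti hΘ ht ht.1
    have h5 : w 0 ≤ 0 := by
      rw [hw]
      simp only [mul_zero, Real.exp_zero, h0, one_mul, zero_sub]
      have : 0 ≤ A / S := div_nonneg hA hS.le
      linarith
    have h6 : w t ≤ 0 := h4.trans h5
    rw [hw] at h6
    simp only at h6
    have h7 := Real.exp_pos (S * t)
    by_contra hcon
    push Not at hcon
    have : 0 < Real.exp (S * t) * (v t - A / S) := mul_pos h7 (by linarith)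
    linarith
  intro t ht
  refine abs_le.2 ⟨?_, key v f hd hf h0 t ht⟩
  have h1 := key (fun s => -v s) (fun s => -f s) (fun s hs => by
      refine (hd s hs).neg.congr_deriv ?_
      ring) (fun s hs => by rw [abs_neg]; exact hf s hs) (by simp [h0]) t ht
  linarith

theorem t_BOOTD : S_BOOTD := by
  intro J g o σ τ L C ℓ ρ B R E D c Θ β S₁ K Rt hΘ hβ
  classical
  -- a bound of the forcing
  set A : J → ℝ := fun j => |E (Sum.inr j)| + |R (Sum.inr j)| with hA
  have hA0 : ∀ j, 0 ≤ A j := fun j => add_nonneg (abs_nonneg _) (abs_nonneg _)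
  set Q : J → ℝ := fun j => A j / β j + A j ^ 2 / β j with hQ
  have hQ0 : ∀ j, 0 ≤ Q j := fun j =>
    add_nonneg (div_nonneg (hA0 j) (hβ j).le) (div_nonneg (sq_nonneg _) (hβ j).le)
  set F : ℕ → Finset J := fun m => (Rt.fin m).toFinset with hF
  set S : ℕ → ℝ := fun m => 1 + |S₁ m| + ∑ j ∈ F m, Q j with hS
  have hS1 : ∀ m, 1 ≤ S m := by
    intro m
    have h1 : 0 ≤ ∑ j ∈ F m, Q j := Finset.sum_nonneg fun j _ => hQ0 j
    have h2 := abs_nonneg (S₁ m)
    rw [hS]; simp only; linarith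
  have hSQ : ∀ j, Q j ≤ S (o j) := by
    intro j
    have h1 : Q j ≤ ∑ j ∈ F (o j), Q j :=
      Finset.single_le_sum (f := Q) (fun j _ => hQ0 j) (by simp [hF])
    have h2 := abs_nonneg (S₁ (o j))
    rw [hS]; simp only; linarith
  refine ⟨S, hS1, fun m => ?_, ?_⟩
  · have h1 : 0 ≤ ∑ j ∈ F m, Q j := Finset.sum_nonneg fun j _ => hQ0 j
    have h2 := le_abs_self (S₁ m)
    rw [hS]; simp only; linarith
  intro N z hz j t ht
  have hSp : 0 < S (o j) := lt_of_lt_of_le one_pos (hS1 _)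
  have hfin : {i : Ix J | lv o i ≤ N}.Finite := by
    have h1 : {i : Ix J | lv o i ≤ N} ⊆ (Sum.inl '' Set.Iic N) ∪ (Sum.inr '' {j | o j ≤ N}) := by
      rintro (n | j) h
      · exact Or.inl ⟨n, h, rfl⟩
      · exact Or.inr ⟨j, h, rfl⟩
    exact (((Set.finite_Iic N).image _).union ((Rt.fin N).image _)).subset h1
  set G : Finset (Ix J) := hfin.toFinset with hG
  have hmem : ∀ i, i ∈ G ↔ lv o i ≤ N := by
    intro i
    simp [hG]
  have hz0 : ∀ s, ∀ a ∉ G, z a s = 0 := by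
    intro s a ha
    rw [hmem] at ha
    exact hz.zero a (by omega) s
  have hbound : |z (Sum.inr j) t| ≤ A j / S (o j) := by
    by_cases hj : lv o (Sum.inr j : Ix J) ≤ N
    · refine damped (v := z (Sum.inr j)) (f := fun s => -(lin D (fun a => z a s) (Sum.inr j)) +
        qd c (fun a => z a s) (Sum.inr j)) hSp (hA0 j) (fun s hs => ?_) (fun s hs => ?_)
        (hz.init.2.2 j) t ht
      · refine (hz.deriv (Sum.inr j) hj s hs).congr_deriv ?_
        have e1 : lin (Dp S o D) (fun a => z a s) (Sum.inr j) =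
            lin D (fun a => z a s) (Sum.inr j) + S (o j) * z (Sum.inr j) s := by
          unfold lin
          rw [tsum_eq_sum (s := G) fun b hb => by simp only [hz0 s b hb, mul_zero],
            tsum_eq_sum (s := G) fun b hb => by simp only [hz0 s b hb, mul_zero], Dp_sum,
            if_pos ((hmem _).2 hj)]
          rfl
        rw [e1]
        simp only [Kz]
        ring
      · have h1 := lin_le K (hz0 s) (hz.energy s hs) (Sum.inr j)
        have h2 := qd_le K (hz0 s) (hz.energy s hs) (Sum.inr j)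
        calc _ ≤ |-(lin D (fun a => z a s) (Sum.inr j))| + |qd c (fun a => z a s) (Sum.inr j)| :=
              abs_add_le _ _
          _ ≤ A j := by rw [abs_neg]; exact add_le_add h1 h2
    · rw [hz0 t _ (fun h => hj ((hmem _).1 h)), abs_zero]
      exact div_nonneg (hA0 j) hSp.le
  have hq := hSQ j
  have hq1 : A j / β j ≤ S (o j) := by
    have : 0 ≤ A j ^ 2 / β j := div_nonneg (sq_nonneg _) (hβ j).le
    rw [hQ] at hq
    simp only at hq
    linarith
  have hq2 : A j ^ 2 / β j ≤ S (o j) := by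
    have : 0 ≤ A j / β j := div_nonneg (hA0 j) (hβ j).le
    rw [hQ] at hq
    simp only at hq
    linarith
  refine ⟨hbound.trans ?_, ?_⟩
  · rw [div_le_iff₀ hSp]
    rw [div_le_iff₀ (hβ j)] at hq1
    linarith
  · have h1 : z (Sum.inr j) t ^ 2 ≤ (A j / S (o j)) ^ 2 := by
      rw [← sq_abs]
      exact pow_le_pow_left₀ (abs_nonneg _) hbound 2
    calc S (o j) * z (Sum.inr j) t ^ 2 ≤ S (o j) * (A j / S (o j)) ^ 2 :=
          mul_le_mul_of_nonneg_left h1 hSp.le
      _ = A j ^ 2 / S (o j) := by field_simp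
      _ ≤ β j := by
          rw [div_le_iff₀ hSp]
          rw [div_le_iff₀ (hβ j)] at hq2
          linarith

end Pool.Agent.Y8.DI
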