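import Pool.Agent.Y8.DI.Kdp
import Pool.Agent.Y303.SK.Fin

/-! Project DI: auxiliary lemmas for the final assembly. -/

open Set Filter Topology MeasureTheory Metric

set_option autoImplicit false

namespace Pool.Agent.Y8.DI

open Pool.Agent.Y5 (E3)
open Pool.Agent.Y5.D (Ix qd vf3 Init)
open Pool.Agent.Y6.N
open Pool.Agent.Y6.K (Kz lv)
open Pool.Agent.Y303.SK

lemma D_le {J : Type} {g : J → ℕ} {L C ℓ ρ : ℕ → ℝ} {B : ℕ → ℕ → ℝ} {R E : Ix J → ℝ}
    {D : Ix J → Ix J → ℝ} {c : Ix J → Ix J → Ix J → ℝ} (K : KD g L C ℓ ρ B R E D c)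
    (i b : Ix J) : |D i b| ≤ E i := by
  have h := K.dlin i {b} (fun _ => 1)
  simpa using h

lemma lin_Dp {J : Type} {g o : J → ℕ} {L C ℓ ρ S : ℕ → ℝ} {B : ℕ → ℕ → ℝ} {R E : Ix J → ℝ}
    {D : Ix J → Ix J → ℝ} {c : Ix J → Ix J → Ix J → ℝ} (K : KD g L C ℓ ρ B R E D c)
    {z : Ix J → ℝ} (hz : Summable (fun a => |z a|)) (i : Ix J) :
    lin (Dp S o D) z i = lin D z i + rt S o i * z i := by
  classical
  have h1 : Summable (fun b => D i b * z b) := by
    refine Summable.of_norm_bounded (hz.mul_left (E i)) fun b => ?_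
    rw [Real.norm_eq_abs, abs_mul]
    exact mul_le_mul_of_nonneg_right (D_le K i b) (abs_nonneg _)
  have h2 : HasSum (fun b => (if i = b then rt S o i else 0) * z b) (rt S o i * z i) := by
    have h3 := hasSum_single (f := fun b => (if i = b then rt S o i else 0) * z b) i
      (fun b hb => by rw [if_neg (Ne.symm hb), zero_mul])
    simpa using h3
  have h4 := (h1.hasSum.add h2).tsum_eq
  unfold lin
  rw [← h4]
  unfold Dp
  exact tsum_congr fun b => by rw [add_mul]

/-- Away from the point `p` the solution stays bounded with all its derivatives. -/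
lemma away {e : Ix (ℕ × Bool) → E3 → E3} {p : E3} {r : ℕ → ℝ} {z : Ix (ℕ × Bool) → ℝ → ℝ}
    {β : ℕ × Bool → ℝ} {T : ℝ} {W : ℕ → Ix (ℕ × Bool) → ℝ} (hW : ∀ k a, nk k (e a) ≤ W k a)
    (hr : Tendsto r atTop (𝓝 0))
    (hzero : ∀ n x, x ∉ ball p (r n) → e (Sum.inl n) x = 0)
    (hser : ∀ z' : Ix (ℕ × Bool) → ℝ, (∀ k : ℕ, Summable (fun a => |z' a| * W k a)) →
      ∀ (k : ℕ) (x : E3), ‖iteratedFDeriv ℝ k (ser e z') x‖ ≤ ∑' a, |z' a| * nk k (e a))
    (hsum : ∀ t ∈ Ico 0 T, ∀ k : ℕ, Summable (fun i => |z i t| * W k i))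
    (h1 : ∀ t ∈ Ico 0 T, ∀ n, |z (Sum.inl n) t| ≤ 1)
    (hβ : ∀ t ∈ Ico 0 T, ∀ j, |z (Sum.inr j) t| ≤ β j)
    (hβs : ∀ k : ℕ, Summable (fun j => β j * nk k (e (Sum.inr j)))) :
    ∀ ρ > 0, ∀ k : ℕ, ∃ M, ∀ t ∈ Ico 0 T, ∀ x, ρ ≤ dist x p →
      ‖iteratedFDeriv ℝ k (ser e (fun i => z i t)) x‖ ≤ M := by
  classical
  intro ρ hρ k
  obtain ⟨N, hN⟩ := Filter.eventually_atTop.1 (hr.eventually (gt_mem_nhds (half_pos hρ)))
  -- majorant
  set b : Ix (ℕ × Bool) → ℝ := Sum.elim (fun n => if n < N then nk k (e (Sum.inl n)) else 0)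
    (fun j => β j * nk k (e (Sum.inr j))) with hb
  have hbs : Summable b := by
    have h3 : Summable (b ∘ Sum.inl) := by
      refine summable_of_ne_finset_zero (s := Finset.range N) fun n hn => ?_
      have : ¬ n < N := fun h => hn (Finset.mem_range.2 h)
      show (if n < N then nk k (e (Sum.inl n)) else 0) = 0
      rw [if_neg this]
    have h4 : Summable (b ∘ Sum.inr) := hβs k
    exact (HasSum.sum h3.hasSum h4.hasSum).summable
  refine ⟨∑' a, b a, fun t ht x hx => ?_⟩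
  -- the reduced coefficients
  set z' : Ix (ℕ × Bool) → ℝ := Sum.elim (fun n => if n < N then z (Sum.inl n) t else 0)
    (fun j => z (Sum.inr j) t) with hz'
  have hz'le : ∀ a, |z' a| ≤ |z a t| := by
    rintro (n | j)
    · show |(if n < N then z (Sum.inl n) t else 0)| ≤ |z (Sum.inl n) t|
      split_ifs
      · exact le_rfl
      · rw [abs_zero]; exact abs_nonneg _
    · exact le_rfl
  have hz'W : ∀ k : ℕ, Summable (fun a => |z' a| * W k a) := fun k =>
    Summable.of_nonneg_of_le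
      (fun a => mul_nonneg (abs_nonneg _) ((nk_nonneg k (e a)).trans (hW k a)))
      (fun a => mul_le_mul_of_nonneg_right (hz'le a) ((nk_nonneg k (e a)).trans (hW k a)))
      (hsum t ht k)
  have hz's : Summable (fun a => |z' a| * nk k (e a)) :=
    Summable.of_nonneg_of_le (fun a => mul_nonneg (abs_nonneg _) (nk_nonneg _ _))
      (fun a => mul_le_mul_of_nonneg_left (hW k a) (abs_nonneg _)) (hz'W k)
  have hle : ∀ a, |z' a| * nk k (e a) ≤ b a := by
    rintro (n | j)
    · show |(if n < N then z (Sum.inl n) t else 0)| * nk k (e (Sum.inl n)) ≤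
        if n < N then nk k (e (Sum.inl n)) else 0
      split_ifs
      · exact mul_le_of_le_one_left (nk_nonneg _ _) (h1 t ht n)
      · rw [abs_zero, zero_mul]
    · exact mul_le_mul_of_nonneg_right (hβ t ht j) (nk_nonneg _ _)
  have heq : ser e (fun i => z i t) =ᶠ[𝓝 x] ser e z' := by
    have hopen : IsOpen {y : E3 | ρ / 2 < dist y p} :=
      isOpen_lt continuous_const (continuous_id.dist continuous_const)
    have hxm : x ∈ {y : E3 | ρ / 2 < dist y p} := by
      show ρ / 2 < dist x p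
      linarith
    refine Filter.eventuallyEq_of_mem (hopen.mem_nhds hxm) fun y hy => ?_
    have hy : ρ / 2 < dist y p := hy
    show ∑' a, z a t • e a y = ∑' a, z' a • e a y
    refine tsum_congr fun a => ?_
    rcases a with n | j
    · by_cases hn : n < N
      · show z (Sum.inl n) t • e (Sum.inl n) y =
          (if n < N then z (Sum.inl n) t else 0) • e (Sum.inl n) y
        rw [if_pos hn]
      · have h5 : e (Sum.inl n) y = 0 := by
          refine hzero n y fun h6 => ?_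
          rw [mem_ball] at h6
          have := hN n (not_lt.1 hn)
          linarith
        rw [h5, smul_zero, smul_zero]
    · rfl
  rw [(heq.iteratedFDeriv ℝ k).eq_of_nhds]
  exact (hser z' hz'W k x).trans (hz's.tsum_le_tsum hle hbs)

/-- restriction to a shorter time interval -/
lemma SolL.mono {ι : Type} {Ω : Set E3} {ν : ℝ} {e : ι → E3 → E3} {lam : ι → ℝ}
    {T T' : ℝ} {u : ℝ → E3 → E3} (h : SolL Ω ν e lam T u) (hT : T' ≤ T) :
    SolL Ω ν e lam T' u :=
  { cont := fun t ht => h.cont t ⟨ht.1, ht.2.trans_le hT⟩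
    zero := fun t ht => h.zero t ⟨ht.1, ht.2.trans_le hT⟩
    c2 := fun t ht => h.c2 t ⟨ht.1, ht.2.trans_le hT⟩
    dv := fun t ht => h.dv t ⟨ht.1, ht.2.trans_le hT⟩
    inH := fun t ht => h.inH t ⟨ht.1, ht.2.trans_le hT⟩
    bdd := fun T'' hT'' => h.bdd T'' (hT''.trans_le hT)
    eqn := fun i t ht => (h.eqn i t ⟨ht.1, ht.2.trans_le hT⟩).mono (Ico_subset_Ico_right hT) }

/-- restriction to a shorter time interval -/
lemma SolLX.mono {ι : Type} {ν : ℝ} {e : ι → E3 → E3} {lam : ι → ℝ}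
    {T T' : ℝ} {u : ℝ → E3 → E3} (h : SolLX ν e lam T u) (hT : T' ≤ T) :
    SolLX ν e lam T' u :=
  { smooth := fun t ht => h.smooth t ⟨ht.1, ht.2.trans_le hT⟩
    axi := fun t ht => h.axi t ⟨ht.1, ht.2.trans_le hT⟩
    dv := fun t ht => h.dv t ⟨ht.1, ht.2.trans_le hT⟩
    bdd := fun k T'' hT'' => h.bdd k T'' (hT''.trans_le hT)
    eqn := fun i t ht => (h.eqn i t ⟨ht.1, ht.2.trans_le hT⟩).mono (Ico_subset_Ico_right hT) }

end Pool.Agent.Y8.DI
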