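import Pool.Agent.Y8.DI.All
import Pool.Agent.Y303.SK.Res

/-!
Project DI: the form in which the theorem in a bounded open set is stated (fields on
`EuclideanSpace ℝ (Fin 3)`). The definitions `dvg`, `CS`, `ipr`, `dirf`, `adv`, `InH`, `SmD` are in
`Pool.Agent.Y303.SK.Res`.
-/

open Set MeasureTheory Metric

set_option autoImplicit false

namespace Pool.Agent.Y8.DIR

open Pool.Agent.Y303.SKR

/-- The dissipation `D = ∑ lam i ⟨·, e i⟩ e i`: here `e i` is a complete orthonormal system of `H`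
which consists of smooth compactly supported divergence-free fields, and `lam i ≥ 0`. -/
structure DissD {ι : Type} (Ω : Set (EuclideanSpace ℝ (Fin 3)))
    (e : ι → EuclideanSpace ℝ (Fin 3) → EuclideanSpace ℝ (Fin 3)) (lam : ι → ℝ) : Prop where
  field : ∀ i, CS Ω (e i)
  orth : ∀ i j, (i = j → ipr (e i) (e j) = 1) ∧ (i ≠ j → ipr (e i) (e j) = 0)
  compl : ∀ v, CS Ω v → ∀ ε > 0, ∃ (F : Finset ι) (b : ι → ℝ),
    ∫ x, ‖v x - ∑ a ∈ F, b a • e a x‖ ^ 2 < ε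
  nonneg : ∀ i, 0 ≤ lam i

/-- Solutions on `[0, T)` of `∂ₜ u + (u · ∇) u + ∇p = ν Δ u - D u`, `div u = 0` in `Ω`,
`u = 0` on `∂Ω` (extended by zero; the equation is tested with the complete system `e`; the
derivatives of order `≤ 2` in space are bounded in `Ω`, locally uniformly in time). -/
structure SolL {ι : Type} (Ω : Set (EuclideanSpace ℝ (Fin 3))) (ν : ℝ)
    (e : ι → EuclideanSpace ℝ (Fin 3) → EuclideanSpace ℝ (Fin 3)) (lam : ι → ℝ)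
    (T : ℝ) (u : ℝ → EuclideanSpace ℝ (Fin 3) → EuclideanSpace ℝ (Fin 3)) : Prop where
  cont : ∀ t ∈ Ico 0 T, Continuous (u t)
  zero : ∀ t ∈ Ico 0 T, ∀ x ∉ Ω, u t x = 0
  c2 : ∀ t ∈ Ico 0 T, ContDiffOn ℝ 2 (u t) Ω
  dv : ∀ t ∈ Ico 0 T, ∀ x ∈ Ω, dvg (u t) x = 0
  inH : ∀ t ∈ Ico 0 T, InH Ω (u t)
  bdd : ∀ T' < T, ∃ M, ∀ k ≤ 2, ∀ t ∈ Icc 0 T', ∀ x ∈ Ω, ‖iteratedFDeriv ℝ k (u t) x‖ ≤ M
  eqn : ∀ i, ∀ t ∈ Ico 0 T, HasDerivWithinAt (fun τ => ipr (u τ) (e i))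
    (-(lam i * ipr (u t) (e i)) - ν * dirf (u t) (e i) - adv (u t) (u t) (e i)) (Ico 0 T) t

/-- `D` vanishes on the modes `e (ψ n)`, which concentrate at `p`; it is as strong as we like on all
the other modes. -/
structure Damp {ι : Type} (p : EuclideanSpace ℝ (Fin 3))
    (Λ : (EuclideanSpace ℝ (Fin 3) → EuclideanSpace ℝ (Fin 3)) → ℝ)
    (e : ι → EuclideanSpace ℝ (Fin 3) → EuclideanSpace ℝ (Fin 3)) (lam : ι → ℝ)
    (ψ : ℕ → ι) : Prop where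
  zero : ∀ n, lam (ψ n) = 0
  strong : ∀ i, (∀ n, i ≠ ψ n) → 0 < lam i ∧ Λ (e i) ≤ lam i
  conc : ∀ ρ > 0, ∃ N, ∀ n ≥ N, tsupport (e (ψ n)) ⊆ ball p ρ

/-- the energy identity -/
def EnL {ι : Type} (ν : ℝ) (e : ι → EuclideanSpace ℝ (Fin 3) → EuclideanSpace ℝ (Fin 3))
    (lam : ι → ℝ) (T : ℝ) (u : ℝ → EuclideanSpace ℝ (Fin 3) → EuclideanSpace ℝ (Fin 3)) :
    Prop :=
  ∀ t ∈ Ico 0 T, Summable (fun i => lam i * ipr (u t) (e i) ^ 2) ∧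
    HasDerivWithinAt (fun τ => ipr (u τ) (u τ))
      (-(2 * (ν * dirf (u t) (u t) + ∑' i, lam i * ipr (u t) (e i) ^ 2))) (Ico 0 T) t

/-- no singularity at the time `T` away from `p` -/
def AwayL (p : EuclideanSpace ℝ (Fin 3)) (T : ℝ)
    (u : ℝ → EuclideanSpace ℝ (Fin 3) → EuclideanSpace ℝ (Fin 3)) : Prop :=
  ∀ ρ > 0, ∀ k : ℕ, ∃ M, ∀ t ∈ Ico 0 T, ∀ x, ρ ≤ dist x p → ‖iteratedFDeriv ℝ k (u t) x‖ ≤ M

open Pool.Agent.Y5 (E3)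

theorem dissD_iff {ι : Type} {Ω : Set E3} {e : ι → E3 → E3} {lam : ι → ℝ} :
    DissD Ω e lam ↔ DI.DissD Ω e lam :=
  ⟨fun h => ⟨fun i => cs_iff.1 (h.field i), h.orth, fun v hv => h.compl v (cs_iff.2 hv),
    h.nonneg⟩,
   fun h => ⟨fun i => cs_iff.2 (h.field i), h.orth, fun v hv => h.compl v (cs_iff.1 hv),
    h.nonneg⟩⟩

theorem solL_iff {ι : Type} {Ω : Set E3} {ν : ℝ} {e : ι → E3 → E3} {lam : ι → ℝ}
    {T : ℝ} {u : ℝ → E3 → E3} : SolL Ω ν e lam T u ↔ DI.SolL Ω ν e lam T u := by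
  constructor
  · intro h
    refine ⟨h.cont, h.zero, h.c2, h.dv, fun t ht => inH_iff.1 (h.inH t ht), ?_, h.eqn⟩
    intro T' hT'
    obtain ⟨M, hM⟩ := h.bdd T' hT'
    refine ⟨M, fun t ht x hx => ⟨?_, ?_, ?_⟩⟩
    · simpa using hM 0 (by norm_num) t ht x hx
    · have := hM 1 (by norm_num) t ht x hx
      rwa [norm_iteratedFDeriv_one] at this
    · rw [norm_fderiv_fderiv]
      exact hM 2 le_rfl t ht x hx
  · intro h
    refine ⟨h.cont, h.zero, h.c2, h.dv, fun t ht => inH_iff.2 (h.inH t ht), ?_, h.eqn⟩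
    intro T' hT'
    obtain ⟨M, hM⟩ := h.bdd T' hT'
    refine ⟨M, fun k hk t ht x hx => ?_⟩
    obtain ⟨h0, h1, h2⟩ := hM t ht x hx
    have hk' : k = 0 ∨ k = 1 ∨ k = 2 := by omega
    rcases hk' with rfl | rfl | rfl
    · simpa using h0
    · rwa [norm_iteratedFDeriv_one]
    · rwa [← norm_fderiv_fderiv]

theorem t_RESD (ν : ℝ) (Ω : Set (EuclideanSpace ℝ (Fin 3))) (p : EuclideanSpace ℝ (Fin 3))
    (Λ : (EuclideanSpace ℝ (Fin 3) → EuclideanSpace ℝ (Fin 3)) → ℝ) (hν : 0 < ν)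
    (hΩ : IsOpen Ω) (hb : Bornology.IsBounded Ω) (hp : p ∈ Ω) :
    ∃ (ι : Type) (e : ι → EuclideanSpace ℝ (Fin 3) → EuclideanSpace ℝ (Fin 3)) (lam : ι → ℝ)
      (ψ : ℕ → ι) (T : ℝ) (u : ℝ → EuclideanSpace ℝ (Fin 3) → EuclideanSpace ℝ (Fin 3)),
      DissD Ω e lam ∧ Damp p Λ e lam ψ ∧ 0 < T ∧ SolL Ω ν e lam T u ∧ u 0 = e (ψ 0) ∧
      SmD T u ∧
      (∀ (T' : ℝ) (v : ℝ → EuclideanSpace ℝ (Fin 3) → EuclideanSpace ℝ (Fin 3)), 0 < T' →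
        SolL Ω ν e lam T' v → v 0 = u 0 → T' ≤ T ∧ ∀ t ∈ Ico 0 T', v t = u t) ∧
      EnL ν e lam T u ∧ AwayL p T u ∧ ∀ M : ℝ, ∃ t ∈ Ico 0 T, ∃ x, M < ‖u t x‖ := by
  obtain ⟨ι, e, lam, ψ, T, u, h1, h2, h3, h4, h5, h6, h7, h8, h9, h10, h11, h12, h13⟩ :=
    DI.t_MAIND ν Ω p Λ hν hΩ hb hp
  refine ⟨ι, e, lam, ψ, T, u, dissD_iff.2 h1, ⟨h2, h3, h4⟩, h5, solL_iff.2 h6, h7, ⟨h8, h9⟩, ?_,
    h11, h12, h13⟩
  intro T' v hT' hv hv0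
  exact h10 T' v hT' (solL_iff.1 hv) hv0

end Pool.Agent.Y8.DIR
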